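import Pool.Agent.U181.NHC.Dim

/-!
# The length of `R / J (n + 1)`
-/

set_option autoImplicit false

noncomputable section

namespace Pool.Agent.U181.NHC

open MvPowerSeries IsLocalRing

/-- the residue map -/
def res : R →+* ℚ := (constantCoeff (σ := Fin 2) (R := ℚ)).comp pr1

lemma res_surj : Function.Surjective res := fun q => ⟨mk (C q) (C q) (by simp), by
  change constantCoeff (C q : A) = q
  exact MvPowerSeries.constantCoeff_C q⟩

/-- `ℚ` with its structure of `R`-algebra -/
@[instance_reducible]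
def algQ : Algebra R ℚ := res.toAlgebra

attribute [local instance] algQ

lemma smulQ (r : R) (q : ℚ) : r • q = constantCoeff r.1.1 * q := rfl

lemma length_Q : Module.length R ℚ = 1 := by
  rw [Module.length_eq_of_surjective (R := ℚ) (S := R) (M := ℚ) res_surj]
  simp

/-- the homogeneous series with coefficients `c` -/
def F (n : ℕ) (c : Finset.HasAntidiagonal.antidiagonal n → ℚ) : A := fun d =>
  if h : (d 0, d 1) ∈ Finset.HasAntidiagonal.antidiagonal n then c ⟨(d 0, d 1), h⟩ else 0

/-- the monomial `b x ^ n` -/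
def G (n : ℕ) (b : ℚ) : B := fun d => if d 0 = n then b else 0

lemma coeff_F (n : ℕ) (c : Finset.HasAntidiagonal.antidiagonal n → ℚ) (d : Fin 2 →₀ ℕ) :
    coeff d (F n c) = if h : (d 0, d 1) ∈ Finset.HasAntidiagonal.antidiagonal n then c ⟨(d 0, d 1), h⟩ else 0 := rfl

lemma coeff_G (n : ℕ) (b : ℚ) (d : Fin 1 →₀ ℕ) :
    coeff d (G n b) = if d 0 = n then b else 0 := rfl

lemma degree_two (d : Fin 2 →₀ ℕ) : d.degree = d 0 + d 1 := by
  rw [Finsupp.degree_eq_sum]; simp

lemma degree_one (d : Fin 1 →₀ ℕ) : d.degree = d 0 := by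
  rw [Finsupp.degree_eq_sum]; simp

lemma order_F (n : ℕ) (c : Finset.HasAntidiagonal.antidiagonal n → ℚ) : (n : ℕ∞) ≤ (F n c).order := by
  refine MvPowerSeries.le_order fun d hd => ?_
  rw [coeff_F, dif_neg]
  rw [Finset.HasAntidiagonal.mem_antidiagonal]
  rw [degree_two, Nat.cast_lt] at hd
  omega

lemma order_G (n : ℕ) (b : ℚ) : (n : ℕ∞) ≤ (G n b).order := by
  refine MvPowerSeries.le_order fun d hd => ?_
  rw [coeff_G, if_neg]
  rw [degree_one, Nat.cast_lt] at hd
  omega

/-- the element of `R` with given forms of degree `n` -/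
def FG {n : ℕ} (hn : 1 ≤ n) (v : (Finset.HasAntidiagonal.antidiagonal n → ℚ) × ℚ) : R :=
  mk (F n v.1) (G n v.2) (by
    rw [cc_zero_of_le hn (order_F n v.1), cc_zero_of_le hn (order_G n v.2)])

lemma FG_mem {n : ℕ} (hn : 1 ≤ n) (v : (Finset.HasAntidiagonal.antidiagonal n → ℚ) × ℚ) : FG hn v ∈ J n :=
  ⟨order_F n v.1, order_G n v.2⟩

lemma FG_add {n : ℕ} (hn : 1 ≤ n) (v w : (Finset.HasAntidiagonal.antidiagonal n → ℚ) × ℚ) :
    FG hn (v + w) = FG hn v + FG hn w := by
  refine R.ext ?_ ?_
  · change F n (v.1 + w.1) = F n v.1 + F n w.1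
    ext d
    rw [map_add, coeff_F, coeff_F, coeff_F]
    split_ifs <;> simp
  · change G n (v.2 + w.2) = G n v.2 + G n w.2
    ext d
    rw [map_add, coeff_G, coeff_G, coeff_G]
    split_ifs <;> simp

/-- the constants in `R` -/
def cst (q : ℚ) : R := mk (C q) (C q) (by simp)

lemma FG_smul {n : ℕ} (hn : 1 ≤ n) (q : ℚ) (v : (Finset.HasAntidiagonal.antidiagonal n → ℚ) × ℚ) :
    FG hn (q • v) = cst q * FG hn v := by
  refine R.ext ?_ ?_
  · change F n (q • v.1) = C q * F n v.1
    ext d
    rw [MvPowerSeries.coeff_C_mul, coeff_F, coeff_F]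
    split_ifs <;> simp
  · change G n (q * v.2) = C q * G n v.2
    ext d
    rw [MvPowerSeries.coeff_C_mul, coeff_G, coeff_G]
    split_ifs <;> simp

lemma sub_cst_mem (r : R) : r - cst (res r) ∈ J 1 := by
  rw [J_one, IsLocalRing.mem_maximalIdeal, mem_nonunits_iff, isUnit_R, not_not]
  change constantCoeff (r.1.1 - C (constantCoeff r.1.1)) = 0
  simp

/-- The linear map onto the part of degree `n` of `R / J (n + 1)`. -/
def fmap {n : ℕ} (hn : 1 ≤ n) : ((Finset.HasAntidiagonal.antidiagonal n → ℚ) × ℚ) →ₗ[R] (R ⧸ J (n + 1)) where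
  toFun v := Ideal.Quotient.mk _ (FG hn v)
  map_add' v w := by rw [FG_add, map_add]
  map_smul' r v := by
    have h1 : r • v = res r • v := rfl
    have h2 : r • (Ideal.Quotient.mk (J (n + 1)) (FG hn v)) =
      Ideal.Quotient.mk (J (n + 1)) (r * FG hn v) := rfl
    rw [h1, FG_smul, RingHom.id_apply, h2, Ideal.Quotient.eq, ← sub_mul, ← neg_mem_iff, ← neg_mul,
      neg_sub, add_comm n 1]
    exact J_mul_le 1 n (Ideal.mul_mem_mul (sub_cst_mem r) (FG_mem hn v))

lemma FG_mem_succ {n : ℕ} (hn : 1 ≤ n) (v : (Finset.HasAntidiagonal.antidiagonal n → ℚ) × ℚ)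
    (h : FG hn v ∈ J (n + 1)) : v = 0 := by
  obtain ⟨h1, h2⟩ := h
  refine Prod.ext ?_ ?_
  · funext ⟨⟨i, j⟩, hij⟩
    rw [Finset.HasAntidiagonal.mem_antidiagonal] at hij
    let d : Fin 2 →₀ ℕ := Finsupp.single 0 i + Finsupp.single 1 j
    have d0 : d 0 = i := by simp [d]
    have d1 : d 1 = j := by simp [d]
    have := MvPowerSeries.coeff_of_lt_order (f := F n v.1) (d := d)
      (lt_of_lt_of_le (by rw [degree_two, d0, d1, Nat.cast_lt]; simp only at hij; omega) h1)
    rw [coeff_F] at this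
    simp only [d0, d1] at this
    rw [dif_pos (Finset.HasAntidiagonal.mem_antidiagonal.2 hij)] at this
    exact this
  · let d : Fin 1 →₀ ℕ := Finsupp.single 0 n
    have d0 : d 0 = n := by simp [d]
    have := MvPowerSeries.coeff_of_lt_order (f := G n v.2) (d := d)
      (lt_of_lt_of_le (by rw [degree_one, d0, Nat.cast_lt]; omega) h2)
    rw [coeff_G, if_pos d0] at this
    exact this

lemma fmap_inj {n : ℕ} (hn : 1 ≤ n) : Function.Injective (fmap hn) := by
  rw [← LinearMap.ker_eq_bot, LinearMap.ker_eq_bot']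
  intro v hv
  exact FG_mem_succ hn v (Ideal.Quotient.eq_zero_iff_mem.1 hv)

/-- the forms of degree `n` of an element -/
def forms (n : ℕ) (p : R) : (Finset.HasAntidiagonal.antidiagonal n → ℚ) × ℚ :=
  (fun ij => coeff (Finsupp.single 0 ij.1.1 + Finsupp.single 1 ij.1.2) p.1.1,
    coeff (Finsupp.single 0 n) p.1.2)

lemma sub_forms_mem {n : ℕ} (hn : 1 ≤ n) {p : R} (hp : p ∈ J n) :
    p - FG hn (forms n p) ∈ J (n + 1) := by
  refine ⟨?_, ?_⟩
  · refine MvPowerSeries.le_order fun d hd => ?_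
    change coeff d (p.1.1 - F n (forms n p).1) = 0
    rw [map_sub, coeff_F]
    rw [degree_two, Nat.cast_lt] at hd
    by_cases hdn : d 0 + d 1 = n
    · rw [dif_pos (Finset.HasAntidiagonal.mem_antidiagonal.2 hdn)]
      have : Finsupp.single 0 (d 0) + Finsupp.single 1 (d 1) = d := by
        ext i; fin_cases i <;> simp
      simp only [forms, this, sub_self]
    · rw [dif_neg (fun h => hdn (Finset.HasAntidiagonal.mem_antidiagonal.1 h)), sub_zero]
      exact MvPowerSeries.coeff_of_lt_order (lt_of_lt_of_le (by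
        rw [degree_two, Nat.cast_lt]; omega) hp.1)
  · refine MvPowerSeries.le_order fun d hd => ?_
    change coeff d (p.1.2 - G n (forms n p).2) = 0
    rw [map_sub, coeff_G]
    rw [degree_one, Nat.cast_lt] at hd
    by_cases hdn : d 0 = n
    · rw [if_pos hdn]
      have : Finsupp.single 0 n = d := by
        ext; simp [hdn]
      simp only [forms, this, sub_self]
    · rw [if_neg hdn, sub_zero]
      exact MvPowerSeries.coeff_of_lt_order (lt_of_lt_of_le (by
        rw [degree_one, Nat.cast_lt]; omega) hp.2)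

/-- the projection -/
def gmap (n : ℕ) : (R ⧸ J (n + 1)) →ₗ[R] (R ⧸ J n) :=
  Submodule.factor (J_antitone (Nat.le_add_right n 1))

lemma gmap_surj (n : ℕ) : Function.Surjective (gmap n) :=
  Submodule.factor_surjective (J_antitone (Nat.le_add_right n 1))

lemma exact_fg {n : ℕ} (hn : 1 ≤ n) : Function.Exact (fmap hn) (gmap n) := by
  intro y
  obtain ⟨p, rfl⟩ := Ideal.Quotient.mk_surjective y
  have h1 : gmap n (Ideal.Quotient.mk _ p) = Ideal.Quotient.mk (J n) p := rfl
  rw [h1, Ideal.Quotient.eq_zero_iff_mem]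
  constructor
  · intro hp
    refine ⟨forms n p, ?_⟩
    change Ideal.Quotient.mk _ (FG hn (forms n p)) = _
    rw [eq_comm, Ideal.Quotient.eq]
    exact sub_forms_mem hn hp
  · rintro ⟨v, hv⟩
    change Ideal.Quotient.mk _ (FG hn v) = _ at hv
    rw [Ideal.Quotient.eq] at hv
    have := J_antitone (Nat.le_succ n) hv
    have h2 := sub_mem (FG_mem hn v) this
    rwa [sub_sub_cancel] at h2

lemma length_step {n : ℕ} (hn : 1 ≤ n) :
    Module.length R (R ⧸ J (n + 1)) = ((n + 2 : ℕ) : ℕ∞) + Module.length R (R ⧸ J n) := by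
  rw [Module.length_eq_add_of_exact (fmap hn) (gmap n) (fmap_inj hn) (gmap_surj n) (exact_fg hn),
    Module.length_prod, Module.length_pi, length_Q]
  congr 1
  rw [mul_one, ENat.card_eq_coe_fintype_card, Fintype.card_coe, Finset.Nat.card_antidiagonal]
  norm_cast

lemma length_J (n : ℕ) : Module.length R (R ⧸ J (n + 1)) = (((n + 2).choose 2 + n : ℕ) : ℕ∞) := by
  induction n with
  | zero =>
    have : IsSimpleModule R (R ⧸ J (0 + 1)) := by
      rw [isSimpleModule_iff_isCoatom, zero_add, J_one]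
      exact (inferInstance : (maximalIdeal R).IsMaximal).out
    rw [Module.length_eq_one]
    norm_num
  | succ n ih =>
    rw [length_step (by omega), ih, ← Nat.cast_add, Nat.cast_inj]
    have : (n + 1 + 2).choose 2 = (n + 2).choose 1 + (n + 2).choose 2 := Nat.choose_succ_succ _ _
    rw [this, Nat.choose_one_right]
    omega

end Pool.Agent.U181.NHC
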