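import Pool.Agent.U181.NHC.Ring

/-!
# Dimension and completion of the fibre product
-/

set_option autoImplicit false

noncomputable section

namespace Pool.Agent.U181.NHC

open MvPowerSeries IsLocalRing

/-- the completion is reduced -/
lemma isReduced_completion : IsReduced (AdicCompletion (maximalIdeal R) R) := by
  rw [isReduced_iff_pow_one_lt 2 (by omega), ← J_one]
  intro x hx
  induction x using AdicCompletion.induction_on with
  | _ a =>
  refine AdicCompletion.ext_evalₐ fun n => ?_
  rw [map_zero, AdicCompletion.evalₐ_mk]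
  have h0 : AdicCompletion.evalₐ (J 1) (2 * n) ((AdicCompletion.mk (J 1) R a) ^ 2) = 0 := by
    rw [hx, map_zero]
  rw [map_pow, AdicCompletion.evalₐ_mk, ← map_pow, Ideal.Quotient.eq_zero_iff_mem, J_one_pow] at h0
  have h2 : a.val (2 * n) ∈ J 1 ^ n := by rw [J_one_pow]; exact sq_mem h0
  rw [← Ideal.Quotient.eq_zero_iff_mem] at h2
  exact (AdicCompletion.Ideal.mk_eq_mk (J 1) (by omega : n ≤ 2 * n) a).symm.trans h2

/-- the prime ideal of the component of dimension two -/
def p0 : Ideal R := RingHom.ker pr1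

instance : p0.IsPrime := by
  have : IsDomain A := NoZeroDivisors.to_isDomain A
  exact RingHom.ker_isPrime pr1

/-- weights -/
def wt : Fin 2 → ℕ := fun i => if i = 0 then 1 else 0

/-- the prime ideal of the series divisible by the first variable in the first coordinate -/
def p1 : Ideal R where
  carrier := {p | 1 ≤ p.1.1.weightedOrder wt}
  add_mem' := fun {p q} hp hq => (le_min hp hq).trans (MvPowerSeries.min_weightedOrder_le_add wt)
  zero_mem' := by simp
  smul_mem' := fun c p hp => le_trans hp (le_add_self.trans (MvPowerSeries.le_weightedOrder_mul wt))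

lemma mem_p1 {p : R} : p ∈ p1 ↔ 1 ≤ p.1.1.weightedOrder wt := Iff.rfl

instance : p1.IsPrime := by
  refine ⟨?_, ?_⟩
  · rw [Ne, Ideal.eq_top_iff_one, mem_p1]
    change ¬ (1 ≤ (1 : A).weightedOrder wt)
    rw [MvPowerSeries.weightedOrder_one]
    simp
  · intro p q h
    rw [mem_p1] at *
    rw [mem_p1]
    change 1 ≤ (p.1.1 * q.1.1).weightedOrder wt at h
    rw [MvPowerSeries.weightedOrder_mul] at h
    by_contra hcon
    rw [not_or, not_le, not_le, Order.lt_one_iff, Order.lt_one_iff] at hcon
    rw [hcon.1, hcon.2] at h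
    simp at h

lemma p0_lt_p1 : p0 < p1 := by
  rw [SetLike.lt_iff_le_and_exists]
  refine ⟨?_, ey, ?_, ?_⟩
  · intro p hp
    have : p.1.1 = 0 := hp
    rw [mem_p1, this]; simp
  · rw [mem_p1]
    change 1 ≤ (X 0 : A).weightedOrder wt
    rw [MvPowerSeries.X, MvPowerSeries.weightedOrder_monomial_of_ne_zero _ one_ne_zero]
    simp [Finsupp.weight_apply, wt]
  · intro h
    have h' : (X 0 : A) = 0 := h
    have := order_X (s := 2) 0
    rw [h'] at this
    simp at this

lemma p1_lt_max : p1 < maximalIdeal R := by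
  rw [SetLike.lt_iff_le_and_exists]
  refine ⟨IsLocalRing.le_maximalIdeal (Ideal.IsPrime.ne_top inferInstance), ez, ?_, ?_⟩
  · rw [← J_one]; exact ez_mem
  · intro h
    rw [mem_p1] at h
    change 1 ≤ (X 1 : A).weightedOrder wt at h
    rw [MvPowerSeries.X, MvPowerSeries.weightedOrder_monomial_of_ne_zero _ one_ne_zero] at h
    simp [Finsupp.weight_apply, wt] at h

lemma two_le_dim : (2 : WithBot ℕ∞) ≤ ringKrullDim R := by
  let q0 : PrimeSpectrum R := ⟨p0, inferInstance⟩
  let q1 : PrimeSpectrum R := ⟨p1, inferInstance⟩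
  let q2 : PrimeSpectrum R := ⟨maximalIdeal R, inferInstance⟩
  have h01 : q0 < q1 := p0_lt_p1
  have h12 : q1 < q2 := p1_lt_max
  let s : LTSeries (PrimeSpectrum R) := LTSeries.mk 2 ![q0, q1, q2] (by
    rw [Fin.strictMono_iff_lt_succ]
    intro i
    fin_cases i
    · exact h01
    · exact h12)
  exact Order.LTSeries.length_le_krullDim s

lemma dim_le_two : ringKrullDim R ≤ (2 : WithBot ℕ∞) := by
  rw [← IsLocalRing.maximalIdeal_height_eq_ringKrullDim]
  have h : maximalIdeal R ∈ (Ideal.span {ey + ex, ez}).minimalPrimes := by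
    refine ⟨⟨inferInstance, ?_⟩, ?_⟩
    · rw [Ideal.span_le, ← J_one]
      rintro p (rfl | rfl)
      · exact add_mem ey_mem ex_mem
      · exact ez_mem
    · rintro Q ⟨hQ, hle⟩ -
      have hu : ey + ex ∈ Q := hle (Ideal.subset_span (Or.inl rfl))
      have hz : ez ∈ Q := hle (Ideal.subset_span (Or.inr rfl))
      have hxy : ey * ex = 0 := by
        refine R.ext ?_ ?_
        · change X 0 * (0 : A) = 0
          ring
        · change (0 : B) * X 0 = 0
          ring
      have hy : ey ∈ Q := by
        have : ey ^ 2 ∈ Q := by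
          have h2 : ey ^ 2 = ey * (ey + ex) := by rw [mul_add, hxy]; ring
          rw [h2]; exact Q.mul_mem_left _ hu
        exact hQ.mem_of_pow_mem _ this
      have hx : ex ∈ Q := by
        have h2 : ex = (ey + ex) - ey := by ring
        rw [h2]; exact sub_mem hu hy
      intro p hp
      rw [← J_one] at hp
      obtain ⟨h1, h2⟩ := hp
      have hc1 : constantCoeff p.1.1 = 0 := cc_zero_of_le le_rfl h1
      have hc2 : constantCoeff p.1.2 = 0 := cc_zero_of_le le_rfl h2
      obtain ⟨g, k, hgk, hg, hk⟩ := decomp_A hc1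
      obtain ⟨l, hl, hl2⟩ := decomp_B hc2
      have e : p = ey * mk g (C (constantCoeff g)) (by simp) +
          ez * mk k (C (constantCoeff k)) (by simp) +
          ex * mk (C (constantCoeff l)) l (by simp) := by
        refine R.ext ?_ ?_
        · change p.1.1 = X 0 * g + X 1 * k + 0 * _
          rw [hgk]; ring
        · change p.1.2 = 0 * _ + 0 * _ + X 0 * l
          rw [hl]; ring
      rw [e]
      exact add_mem (add_mem (Q.mul_mem_right _ hy) (Q.mul_mem_right _ hz)) (Q.mul_mem_right _ hx)
  have h2 := Ideal.height_le_card_of_mem_minimalPrimes_span (Set.toFinite _) h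
  have h3 : ({ey + ex, ez} : Set R).ncard ≤ 2 := Set.ncard_insert_le _ _ |>.trans (by simp)
  have h4 : (maximalIdeal R).height ≤ ((2 : ℕ) : ℕ∞) := h2.trans (Nat.cast_le.2 h3)
  exact WithBot.coe_le_coe.2 h4

lemma dim_R : ringKrullDim R = ((2 : ℕ) : WithBot ℕ∞) :=
  le_antisymm (by exact_mod_cast dim_le_two) (by exact_mod_cast two_le_dim)

end Pool.Agent.U181.NHC
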