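import Mathlib

/-!
# The ring `k[[x,y,z]]/(xy,xz)` as a fibre product

`R = {(f, g) ∈ ℚ[[y,z]] × ℚ[[x]] : f(0) = g(0)}`; the ideals `J n` of the pairs of series of order
at least `n`.
-/

set_option autoImplicit false

noncomputable section

namespace Pool.Agent.U181.NHC

open MvPowerSeries

/-- Power series in two variables. -/
abbrev A := MvPowerSeries (Fin 2) ℚ
/-- Power series in one variable. -/
abbrev B := MvPowerSeries (Fin 1) ℚ

/-- The fibre product of `A` and `B` over `ℚ`. -/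
def Rs : Subring (A × B) :=
  RingHom.eqLocus ((constantCoeff (σ := Fin 2) (R := ℚ)).comp (RingHom.fst A B))
    ((constantCoeff (σ := Fin 1) (R := ℚ)).comp (RingHom.snd A B))

/-- The fibre product as a type. -/
abbrev R := Rs

lemma mem_Rs {p : A × B} : p ∈ Rs ↔ constantCoeff p.1 = constantCoeff p.2 := Iff.rfl

lemma R.cc (p : R) : constantCoeff p.1.1 = constantCoeff p.1.2 := p.2

/-- build an element of `R` -/
def mk (f : A) (g : B) (h : constantCoeff f = constantCoeff g) : R := ⟨(f, g), h⟩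

@[simp] lemma mk_fst (f : A) (g : B) (h) : (mk f g h).1.1 = f := rfl
@[simp] lemma mk_snd (f : A) (g : B) (h) : (mk f g h).1.2 = g := rfl

lemma R.ext {p q : R} (h1 : p.1.1 = q.1.1) (h2 : p.1.2 = q.1.2) : p = q :=
  Subtype.ext (Prod.ext h1 h2)

/-- projection to `A` -/
def pr1 : R →+* A := (RingHom.fst A B).comp Rs.subtype
/-- projection to `B` -/
def pr2 : R →+* B := (RingHom.snd A B).comp Rs.subtype

@[simp] lemma pr1_apply (p : R) : pr1 p = p.1.1 := rfl
@[simp] lemma pr2_apply (p : R) : pr2 p = p.1.2 := rfl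

lemma pr1_surj : Function.Surjective pr1 := fun f =>
  ⟨mk f (C (constantCoeff f)) (by simp), rfl⟩

lemma pr2_surj : Function.Surjective pr2 := fun g =>
  ⟨mk (C (constantCoeff g)) g (by simp), rfl⟩

/-- Noetherian modules over a surjective quotient -/
lemma isNoetherian_of_surj {S T M : Type*} [CommRing S] [CommRing T] [AddCommGroup M]
    [Module T M] (φ : S →+* T) (hφ : Function.Surjective φ) [IsNoetherian T M] :
    @IsNoetherian S M _ _ (Module.compHom M φ) := by
  let _ := Module.compHom M φ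
  have : RingHomSurjective φ := ⟨hφ⟩
  let f : M →ₛₗ[φ] M := ⟨AddHom.id M, fun r m => rfl⟩
  let e := Submodule.orderIsoMapComapOfBijective f Function.bijective_id
  have h := (inferInstance : IsNoetherian T M)
  rw [isNoetherian_iff'] at h ⊢
  exact e.strictMono.wellFoundedGT

/-- the `R`-module `A` -/
def modA : Module R A := Module.compHom A pr1
/-- the `R`-module `B` -/
def modB : Module R B := Module.compHom B pr2

instance isNoetherianRing_R : IsNoetherianRing R := by
  let _ := modA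
  let _ := modB
  have hA : IsNoetherian R A := isNoetherian_of_surj pr1 pr1_surj
  have hB : IsNoetherian R B := isNoetherian_of_surj pr2 pr2_surj
  let f : R →ₗ[R] A × B :=
    { toFun := fun p => (p.1.1, p.1.2)
      map_add' := fun p q => rfl
      map_smul' := fun p q => rfl }
  have hf : Function.Injective f := fun p q h => R.ext (congrArg Prod.fst h) (congrArg Prod.snd h)
  exact isNoetherian_of_injective f hf

instance : Nontrivial R := ⟨0, 1, fun h => by
  have := congrArg (fun p : R => constantCoeff p.1.1) h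
  simp at this⟩

lemma isUnit_R {p : R} : IsUnit p ↔ constantCoeff p.1.1 ≠ 0 := by
  constructor
  · intro h
    have := h.map pr1
    rw [MvPowerSeries.isUnit_iff_constantCoeff] at this
    exact this.ne_zero
  · intro h
    have h2 : constantCoeff p.1.2 ≠ 0 := by rw [← R.cc]; exact h
    refine IsUnit.of_mul_eq_one (mk p.1.1⁻¹ p.1.2⁻¹ ?_) ?_
    · rw [MvPowerSeries.constantCoeff_inv, MvPowerSeries.constantCoeff_inv, R.cc]
    · exact R.ext (MvPowerSeries.mul_inv_cancel _ h) (MvPowerSeries.mul_inv_cancel _ h2)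

instance : IsLocalRing R := IsLocalRing.of_nonunits_add fun p q hp hq => by
  rw [mem_nonunits_iff, isUnit_R, not_not] at *
  change constantCoeff (p.1.1 + q.1.1) = 0
  rw [map_add, hp, hq, add_zero]

/-- The ideal of the pairs of series of order at least `n`. -/
def J (n : ℕ) : Ideal R where
  carrier := {p | (n : ℕ∞) ≤ p.1.1.order ∧ (n : ℕ∞) ≤ p.1.2.order}
  add_mem' := fun {p q} hp hq =>
    ⟨(le_min hp.1 hq.1).trans MvPowerSeries.min_order_le_add,
     (le_min hp.2 hq.2).trans MvPowerSeries.min_order_le_add⟩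
  zero_mem' := by
    refine ⟨?_, ?_⟩ <;> simp
  smul_mem' := fun c p hp =>
    ⟨hp.1.trans (le_add_self.trans MvPowerSeries.le_order_mul),
     hp.2.trans (le_add_self.trans MvPowerSeries.le_order_mul)⟩

lemma mem_J {n : ℕ} {p : R} : p ∈ J n ↔ (n : ℕ∞) ≤ p.1.1.order ∧ (n : ℕ∞) ≤ p.1.2.order := Iff.rfl

lemma J_zero : J 0 = ⊤ := by
  rw [Ideal.eq_top_iff_one, mem_J]; simp

lemma J_one : J 1 = IsLocalRing.maximalIdeal R := by
  ext p
  rw [mem_J, IsLocalRing.mem_maximalIdeal, mem_nonunits_iff, isUnit_R, not_not,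
    Nat.cast_one, MvPowerSeries.one_le_order_iff_constCoeff_eq_zero,
    MvPowerSeries.one_le_order_iff_constCoeff_eq_zero, ← R.cc, and_self]

lemma J_antitone {m n : ℕ} (h : m ≤ n) : J n ≤ J m := fun _ hp =>
  ⟨(Nat.cast_le.2 h).trans hp.1, (Nat.cast_le.2 h).trans hp.2⟩

lemma J_mul_le (m n : ℕ) : J m * J n ≤ J (m + n) := by
  rw [Ideal.mul_le]
  intro p hp q hq
  refine ⟨?_, ?_⟩
  · push_cast
    exact (add_le_add hp.1 hq.1).trans MvPowerSeries.le_order_mul
  · push_cast
    exact (add_le_add hp.2 hq.2).trans MvPowerSeries.le_order_mul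

lemma order_X_mul {s : ℕ} (i : Fin s) (g : MvPowerSeries (Fin s) ℚ) :
    (X i * g).order = 1 + g.order := by
  rw [MvPowerSeries.order_mul]
  congr 1
  have h := MvPowerSeries.order_monomial_of_ne_zero (σ := Fin s) (R := ℚ)
    (d := Finsupp.single i 1) (a := 1) one_ne_zero
  rw [MvPowerSeries.X, h]
  simp

lemma decomp_A {f : A} (h : constantCoeff f = 0) : ∃ g h : A, f = X 0 * g + X 1 * h ∧
    f.order ≤ 1 + g.order ∧ f.order ≤ 1 + h.order := by
  let f1 : A := fun d => if d 0 = 0 then 0 else f d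
  let f2 : A := fun d => if d 0 = 0 then f d else 0
  have h1 : (X 0 : A) ∣ f1 := by
    rw [MvPowerSeries.X_dvd_iff]
    intro m hm
    change (if m 0 = 0 then (0 : ℚ) else f m) = 0
    rw [if_pos hm]
  have h2 : (X 1 : A) ∣ f2 := by
    rw [MvPowerSeries.X_dvd_iff]
    intro m hm
    change (if m 0 = 0 then f m else (0 : ℚ)) = 0
    split_ifs with h0
    · have : m = 0 := by
        ext i
        fin_cases i
        · exact h0
        · exact hm
      rw [this]; exact h
    · rfl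
  have hf : f = f1 + f2 := by
    ext m
    rw [map_add]
    change f m = (if m 0 = 0 then (0 : ℚ) else f m) + (if m 0 = 0 then f m else (0 : ℚ))
    split_ifs <;> simp
  have ho1 : f.order ≤ f1.order := by
    refine MvPowerSeries.le_order fun d hd => ?_
    change (if d 0 = 0 then (0 : ℚ) else f d) = 0
    split_ifs
    · rfl
    · exact MvPowerSeries.coeff_of_lt_order hd
  have ho2 : f.order ≤ f2.order := by
    refine MvPowerSeries.le_order fun d hd => ?_
    change (if d 0 = 0 then f d else (0 : ℚ)) = 0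
    split_ifs
    · exact MvPowerSeries.coeff_of_lt_order hd
    · rfl
  obtain ⟨g, hg⟩ := h1
  obtain ⟨k, hk⟩ := h2
  refine ⟨g, k, by rw [← hg, ← hk]; exact hf, ?_, ?_⟩
  · rw [← order_X_mul 0 g, ← hg]; exact ho1
  · rw [← order_X_mul 1 k, ← hk]; exact ho2

lemma decomp_B {f : B} (h : constantCoeff f = 0) : ∃ g : B, f = X 0 * g ∧
    f.order = 1 + g.order := by
  have h1 : (X 0 : B) ∣ f := by
    rw [MvPowerSeries.X_dvd_iff]
    intro m hm
    have : m = 0 := by
      ext
      exact hm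
    rw [this]; exact h
  obtain ⟨g, hg⟩ := h1
  exact ⟨g, hg, by rw [← order_X_mul 0 g, ← hg]⟩

/-- the element `y` -/
def ey : R := mk (X 0) 0 (by simp)
/-- the element `z` -/
def ez : R := mk (X 1) 0 (by simp)
/-- the element `x` -/
def ex : R := mk 0 (X 0) (by simp)

lemma order_X {s : ℕ} (i : Fin s) : (X i : MvPowerSeries (Fin s) ℚ).order = 1 := by
  have h := MvPowerSeries.order_monomial_of_ne_zero (σ := Fin s) (R := ℚ)
    (d := Finsupp.single i 1) (a := 1) one_ne_zero
  rw [MvPowerSeries.X, h]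
  simp

lemma ey_mem : ey ∈ J 1 := by
  refine ⟨?_, ?_⟩
  · change ((1 : ℕ) : ℕ∞) ≤ (X 0 : A).order
    rw [order_X]; simp
  · change ((1 : ℕ) : ℕ∞) ≤ (0 : B).order
    simp

lemma ez_mem : ez ∈ J 1 := by
  refine ⟨?_, ?_⟩
  · change ((1 : ℕ) : ℕ∞) ≤ (X 1 : A).order
    rw [order_X]; simp
  · change ((1 : ℕ) : ℕ∞) ≤ (0 : B).order
    simp

lemma ex_mem : ex ∈ J 1 := by
  refine ⟨?_, ?_⟩
  · change ((1 : ℕ) : ℕ∞) ≤ (0 : A).order
    simp
  · change ((1 : ℕ) : ℕ∞) ≤ (X 0 : B).order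
    rw [order_X]; simp

lemma cc_zero_of_le {s n : ℕ} {f : MvPowerSeries (Fin s) ℚ} (hn : 1 ≤ n)
    (h : (n : ℕ∞) ≤ f.order) : constantCoeff f = 0 := by
  rw [← MvPowerSeries.one_le_order_iff_constCoeff_eq_zero]
  exact le_trans (by exact_mod_cast hn) h

lemma J_succ_le {n : ℕ} (hn : 1 ≤ n) : J (n + 1) ≤ J 1 * J n := by
  intro p hp
  obtain ⟨h1, h2⟩ := hp
  have hc1 : constantCoeff p.1.1 = 0 := cc_zero_of_le (by omega) h1
  have hc2 : constantCoeff p.1.2 = 0 := cc_zero_of_le (by omega) h2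
  obtain ⟨g, k, hgk, hg, hk⟩ := decomp_A hc1
  obtain ⟨l, hl, hl2⟩ := decomp_B hc2
  have aux : ∀ u : ℕ∞, ((n + 1 : ℕ) : ℕ∞) ≤ 1 + u → (n : ℕ∞) ≤ u := by
    intro u hu
    rw [Nat.cast_add, Nat.cast_one, add_comm] at hu
    exact (ENat.add_le_add_iff_left (by simp)).1 hu
  have hg' : (n : ℕ∞) ≤ g.order := aux _ (h1.trans hg)
  have hk' : (n : ℕ∞) ≤ k.order := aux _ (h1.trans hk)
  have hl' : (n : ℕ∞) ≤ l.order := aux _ (h2.trans hl2.le)
  have hgc := cc_zero_of_le hn hg'
  have hkc := cc_zero_of_le hn hk'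
  have hlc := cc_zero_of_le hn hl'
  have e : p = ey * mk g 0 (by simpa using hgc) + ez * mk k 0 (by simpa using hkc) +
      ex * mk 0 l (by simpa using hlc.symm) := by
    refine R.ext ?_ ?_
    · change p.1.1 = X 0 * g + X 1 * k + 0 * 0
      rw [hgk]; ring
    · change p.1.2 = 0 * 0 + 0 * 0 + X 0 * l
      rw [hl]; ring
  rw [e]
  refine add_mem (add_mem (Ideal.mul_mem_mul ey_mem ⟨hg', ?_⟩) (Ideal.mul_mem_mul ez_mem ⟨hk', ?_⟩))
    (Ideal.mul_mem_mul ex_mem ⟨?_, hl'⟩)
  · change (n : ℕ∞) ≤ (0 : B).order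
    simp
  · change (n : ℕ∞) ≤ (0 : B).order
    simp
  · change (n : ℕ∞) ≤ (0 : A).order
    simp

lemma J_one_pow (n : ℕ) : J 1 ^ n = J n := by
  induction n with
  | zero => rw [pow_zero, J_zero, Ideal.one_eq_top]
  | succ n ih =>
    rcases Nat.eq_zero_or_pos n with h0 | hn
    · subst h0; simp
    · refine le_antisymm ?_ ?_
      · rw [pow_succ, ih]
        exact J_mul_le n 1
      · rw [pow_succ', ih]
        exact J_succ_le hn

lemma J_pow (n k : ℕ) : (J 1 ^ n) ^ k = J (n * k) := by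
  rw [← pow_mul, J_one_pow]

/-- integrality over a power of `J 1` and the order in one coordinate -/
lemma order_of_integral {s n k : ℕ} (hk : 0 < k) (f : MvPowerSeries (Fin s) ℚ)
    (a : ℕ → MvPowerSeries (Fin s) ℚ)
    (ha : ∀ j, ((n * j : ℕ) : ℕ∞) ≤ (a j).order)
    (he : f ^ k + ∑ j ∈ Finset.range k, a (k - j) * f ^ j = 0) : (n : ℕ∞) ≤ f.order := by
  by_contra hlt
  rw [not_le] at hlt
  obtain ⟨r, hr⟩ := ENat.ne_top_iff_exists.1 (ne_top_of_lt hlt)
  rw [← hr, Nat.cast_lt] at hlt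
  have hpow : ∀ j : ℕ, (f ^ j).order = ((r * j : ℕ) : ℕ∞) := by
    intro j
    induction j with
    | zero =>
      rw [pow_zero, mul_zero]
      have h := MvPowerSeries.order_monomial_of_ne_zero (σ := Fin s) (R := ℚ)
        (d := 0) (a := 1) one_ne_zero
      have h1 : (1 : MvPowerSeries (Fin s) ℚ) = MvPowerSeries.monomial 0 1 := rfl
      rw [h1, h]
      simp
    | succ j ih =>
      rw [pow_succ, MvPowerSeries.order_mul, ih, ← hr]
      push_cast
      ring
  have hsum : ((r * k + 1 : ℕ) : ℕ∞) ≤ (∑ j ∈ Finset.range k, a (k - j) * f ^ j).order := by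
    refine Finset.sum_induction _ (fun u => ((r * k + 1 : ℕ) : ℕ∞) ≤ MvPowerSeries.order u)
      (fun u v hu hv => (le_min hu hv).trans MvPowerSeries.min_order_le_add) (by simp) ?_
    intro j hj
    rw [Finset.mem_range] at hj
    rw [MvPowerSeries.order_mul, hpow]
    refine le_trans ?_ (add_le_add_left (ha (k - j)) _)
    rw [← Nat.cast_add, Nat.cast_le]
    obtain ⟨t, ht⟩ := Nat.exists_eq_add_of_lt hj
    obtain ⟨w, hw⟩ := Nat.exists_eq_add_of_lt hlt
    subst ht hw
    have : j + t + 1 - j = t + 1 := by omega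
    rw [this]
    nlinarith [Nat.zero_le w, Nat.zero_le t, Nat.zero_le (w * t)]
  have h3 : (f ^ k) = - ∑ j ∈ Finset.range k, a (k - j) * f ^ j := by
    rw [eq_neg_iff_add_eq_zero]; exact he
  have h4 := hpow k
  rw [h3, MvPowerSeries.order_neg] at h4
  rw [h4, Nat.cast_le] at hsum
  omega

lemma pr1_map_sum {k : ℕ} (x : R) (a : ℕ → R) :
    pr1 (x ^ k + ∑ j ∈ Finset.range k, a (k - j) * x ^ j) =
      (pr1 x) ^ k + ∑ j ∈ Finset.range k, (fun i => pr1 (a i)) (k - j) * (pr1 x) ^ j := by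
  simp only [map_add, map_pow, map_sum, map_mul]

lemma pr2_map_sum {k : ℕ} (x : R) (a : ℕ → R) :
    pr2 (x ^ k + ∑ j ∈ Finset.range k, a (k - j) * x ^ j) =
      (pr2 x) ^ k + ∑ j ∈ Finset.range k, (fun i => pr2 (a i)) (k - j) * (pr2 x) ^ j := by
  simp only [map_add, map_pow, map_sum, map_mul]

/-- `J n` is the integral closure of `(J 1) ^ n`. -/
lemma mem_J_iff_integral (n : ℕ) (x : R) : x ∈ J n ↔
    ∃ k : ℕ, 0 < k ∧ ∃ a : ℕ → R, (∀ j, a j ∈ (J 1 ^ n) ^ j) ∧
      x ^ k + ∑ j ∈ Finset.range k, a (k - j) * x ^ j = 0 := by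
  constructor
  · intro hx
    refine ⟨1, one_pos, fun j => if j = 1 then -x else 0, fun j => ?_, by simp⟩
    by_cases hj : j = 1
    · subst hj
      simp only [if_true, pow_one]
      rw [J_one_pow]
      exact neg_mem hx
    · simp only [if_neg hj]
      exact zero_mem _
  · rintro ⟨k, hk, a, ha, he⟩
    simp only [J_pow] at ha
    refine ⟨?_, ?_⟩
    · refine order_of_integral hk (pr1 x) (fun i => pr1 (a i)) (fun j => (ha j).1) ?_
      rw [← pr1_map_sum, he, map_zero]
    · refine order_of_integral hk (pr2 x) (fun i => pr2 (a i)) (fun j => (ha j).2) ?_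
      rw [← pr2_map_sum, he, map_zero]

lemma sq_mem {n : ℕ} {x : R} (h : x ^ 2 ∈ J (2 * n)) : x ∈ J n := by
  have key : ∀ {s : ℕ} (f : MvPowerSeries (Fin s) ℚ), ((2 * n : ℕ) : ℕ∞) ≤ (f ^ 2).order →
      (n : ℕ∞) ≤ f.order := by
    intro s f hf
    rw [pow_two, MvPowerSeries.order_mul] at hf
    by_contra hlt
    rw [not_le] at hlt
    obtain ⟨r, hr⟩ := ENat.ne_top_iff_exists.1 (ne_top_of_lt hlt)
    rw [← hr, Nat.cast_lt] at hlt
    rw [← hr, ← Nat.cast_add, Nat.cast_le] at hf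
    omega
  exact ⟨key _ h.1, key _ h.2⟩

end Pool.Agent.U181.NHC
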